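import Mathlib
import Pool.Agent.KS6_31.FK.FK2

/-!
# Fork-free graphs: real weights, infinite vertex sets, hierarchy and quadratic bound
-/

set_option autoImplicit false

namespace Pool.Agent.Results.MP_08bb88_co.WeightsAndInfinite

universe u

variable {V : Type u}

/-- `G` has no induced fork (edges `ab, bc, cd, ce` on five distinct vertices). -/
def ForkFree (G : SimpleGraph V) : Prop :=
  ¬ ∃ a b c d e : V, a ≠ c ∧ a ≠ d ∧ a ≠ e ∧ b ≠ d ∧ b ≠ e ∧ d ≠ e ∧
      G.Adj a b ∧ G.Adj b c ∧ G.Adj c d ∧ G.Adj c e ∧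
      ¬ G.Adj a c ∧ ¬ G.Adj a d ∧ ¬ G.Adj a e ∧ ¬ G.Adj b d ∧ ¬ G.Adj b e ∧ ¬ G.Adj d e

/-- Every finite clique inside `S` has at most `k` vertices. -/
def CliquesLE (G : SimpleGraph V) (S : Set V) (k : ℕ) : Prop :=
  ∀ K : Finset V, (↑K : Set V) ⊆ S → G.IsClique (↑K : Set V) → K.card ≤ k

/-- The (finite or infinite) graph induced by `A` is perfect: every induced subgraph all of whose
finite cliques have at most `k` vertices can be coloured with `k` colours. -/
def PerfectOn (G : SimpleGraph V) (A : Set V) : Prop :=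
  ∀ T : Set V, T ⊆ A → ∀ k : ℕ, CliquesLE G T k → (G.induce T).Colorable k

/-- Division for real weights: if `w ≥ 0` on `S` and all finite cliques in `S` have weight at most
`W > 0`, then `S` splits into a perfect `A` and a `B` all of whose finite cliques have weight
smaller than `W`. -/
def DividesWeights (G : SimpleGraph V) : Prop :=
  ∀ (S : Set V) (w : V → ℝ) (W : ℝ), (∀ v ∈ S, 0 ≤ w v) → 0 < W →
    (∀ K : Finset V, (↑K : Set V) ⊆ S → G.IsClique (↑K : Set V) → ∑ v ∈ K, w v ≤ W) →
    ∃ A B : Set V, A ∪ B = S ∧ Disjoint A B ∧ PerfectOn G A ∧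
      ∀ K : Finset V, (↑K : Set V) ⊆ B → G.IsClique (↑K : Set V) → ∑ v ∈ K, w v < W

/-- The conclusion of Q1 for one set `S`: `S` splits into `A` and `B`, with `χ = ω` on all
subsets of `A` and `ω(B) < ω(S)`. -/
def DividesAt (G : SimpleGraph V) (S : Set V) : Prop :=
  ∃ A B : Set V, A ∪ B = S ∧ Disjoint A B ∧
    (∀ T : Set V, T ⊆ A →
      ∃ s : Finset V, (↑s : Set V) ⊆ T ∧ G.IsClique (↑s : Set V) ∧
        (G.induce T).Colorable s.card) ∧
    (∃ s : Finset V, (↑s : Set V) ⊆ S ∧ G.IsClique (↑s : Set V) ∧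
      ∀ t : Finset V, (↑t : Set V) ⊆ B → G.IsClique (↑t : Set V) → t.card < s.card)

/-- `S` splits into `k` perfect levels such that the union of the `i` lowest levels has no clique
with more than `i` vertices. -/
def Levels (G : SimpleGraph V) (S : Set V) (k : ℕ) : Prop :=
  ∃ c : V → ℕ, (∀ v ∈ S, c v < k) ∧
    ∀ i : ℕ, PerfectOn G {v | v ∈ S ∧ c v = i} ∧ CliquesLE G {v | v ∈ S ∧ c v < i} i

theorem exists_max_of_bound {G : SimpleGraph V} {T : Set V} {k : ℕ} (h : CliquesLE G T k) :
    ∃ s : Finset V, (↑s : Set V) ⊆ T ∧ G.IsClique (↑s : Set V) ∧ CliquesLE G T s.card := by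
  classical
  set P : ℕ → Prop := fun n => ∃ s : Finset V, (↑s : Set V) ⊆ T ∧ G.IsClique (↑s : Set V) ∧
    s.card = n with hP
  have h0 : P 0 := ⟨∅, by simp, by simp, rfl⟩
  have h1 : P (Nat.findGreatest P k) := Nat.findGreatest_spec (Nat.zero_le k) h0
  obtain ⟨s, hs1, hs2, hs3⟩ := h1
  refine ⟨s, hs1, hs2, fun K hK hKc => ?_⟩
  rw [hs3]
  exact Nat.le_findGreatest (h K hK hKc) ⟨K, hK, hKc, rfl⟩

/-- Fork-free graphs, finite or infinite: division for real weights, perfect divisibility of all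
sets with bounded cliques, the hierarchy of perfect levels, and the quadratic colouring bound. -/
theorem result : ∀ (V : Type u) (G : SimpleGraph V), ForkFree G →
    DividesWeights G ∧
    (∀ S : Set V, S.Nonempty → (∃ k, CliquesLE G S k) → DividesAt G S) ∧
    (∀ (S : Set V) (k : ℕ), CliquesLE G S k →
      Levels G S k ∧ (G.induce S).Colorable ((k + 1).choose 2)) := by
  classical
  intro V G hff
  have hdw : DividesWeights G := by
    intro S w W hw hW hb
    obtain ⟨A, hAS, hA, hB⟩ := Pool.Agent.KS6_31.FK.compactness hff S w W hw hW hb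
    exact ⟨A, S \ A, Set.union_sdiff_cancel hAS, Set.disjoint_sdiff_right, hA, hB⟩
  refine ⟨hdw, ?_, ?_⟩
  · rintro S ⟨x, hx⟩ ⟨k, hk⟩
    obtain ⟨s, hs1, hs2, hs3⟩ := exists_max_of_bound hk
    have hspos : 0 < s.card := by
      have := hs3 {x} (by simpa using hx) (by simp)
      simpa using this
    obtain ⟨A, B, hAB, hdis, hA, hB⟩ := hdw S (fun _ => 1) s.card (fun _ _ => zero_le_one)
      (by exact_mod_cast hspos) (by
        intro K hK hKc
        rw [Finset.sum_const, nsmul_eq_mul, mul_one]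
        exact_mod_cast hs3 K hK hKc)
    refine ⟨A, B, hAB, hdis, ?_, s, hs1, hs2, ?_⟩
    · intro T hT
      have hTS : T ⊆ S := hT.trans (hAB ▸ Set.subset_union_left)
      obtain ⟨t, ht1, ht2, ht3⟩ := exists_max_of_bound (G := G) (T := T) (k := k)
        (fun K hK hKc => hk K (hK.trans hTS) hKc)
      exact ⟨t, ht1, ht2, hA T hT _ ht3⟩
    · intro t ht htc
      have := hB t ht htc
      rw [Finset.sum_const, nsmul_eq_mul, mul_one] at this
      exact_mod_cast this
  · intro S k hk
    exact ⟨Pool.Agent.KS6_31.FK.hierarchy hff k S hk, Pool.Agent.KS6_31.FK.quadratic hff k S hk⟩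

end Pool.Agent.Results.MP_08bb88_co.WeightsAndInfinite
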